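import Mathlib
import Pool.Agent.TH957.WM.Fin

set_option autoImplicit false

namespace Pool.Agent.Results.MP_a89d6d_nt.JetsMeasure

open Filter

/-- **Measures for rational combinations of consecutive zeta values.**  Let `j0 ≥ 3`, `s ≥ 0`, `j0 + s ≥ 5` odd, and
for integers `a_0, …, a_s` put `L_j(a) = ∑_{l ≤ s} a_l C(j+l-1, l) ζ(j+l)`; let `j` run over the integers of the
parity of `j0` with `j0 ≤ j ≤ (21 j0 + 17 s - 42) / 4`.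

1. For all large `H`, all integers `a_0, …, a_s`, not all zero and of absolute value at most `H`, and all integers
`P_j` there is a `j` with `|L_j(a) - P_j| ≥ H ^ (-168 (j0 + s - 2))`.

2. For all integers `a_0, …, a_s`, not all zero, all large `q` and all integers `P_j` there is a `j` with
`|q L_j(a) - P_j| ≥ q ^ (-1188)`. -/
theorem result (s j0 : ℕ) (h3 : 3 ≤ j0) (hpar : Odd (j0 + s)) (h5 : 5 ≤ j0 + s) :
    (∃ H0 : ℕ, ∀ H : ℕ, H0 ≤ H → ∀ a : ℕ → ℤ, (∀ l, l ≤ s → |a l| ≤ H) → (∃ l, l ≤ s ∧ a l ≠ 0) →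
      ∀ P : ℕ → ℤ, ∃ j : ℕ, j % 2 = j0 % 2 ∧ j0 ≤ j ∧ 4 * j + 42 ≤ 21 * j0 + 17 * s ∧
        (H : ℝ) ^ (-(168 * ((j0 : ℝ) + s - 2))) ≤
          |(∑ l ∈ Finset.range (s + 1), (a l : ℝ) * (Nat.choose (j + l - 1) l : ℝ) *
            ∑' n : ℕ, 1 / ((n : ℝ) + 1) ^ (j + l)) - (P j : ℝ)|) ∧
    (∀ a : ℕ → ℤ, (∃ l, l ≤ s ∧ a l ≠ 0) → ∃ q0 : ℕ, ∀ q : ℕ, q0 ≤ q →
      ∀ P : ℕ → ℤ, ∃ j : ℕ, j % 2 = j0 % 2 ∧ j0 ≤ j ∧ 4 * j + 42 ≤ 21 * j0 + 17 * s ∧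
        (q : ℝ) ^ (-(1188 : ℝ)) ≤
          |(q : ℝ) * (∑ l ∈ Finset.range (s + 1), (a l : ℝ) * (Nat.choose (j + l - 1) l : ℝ) *
            ∑' n : ℕ, 1 / ((n : ℝ) + 1) ^ (j + l)) - (P j : ℝ)|) :=
  ⟨eventually_atTop.1 (Pool.Agent.TH957.WM.jets_uniform s j0 h3 hpar h5), fun a ha =>
    eventually_atTop.1 (Pool.Agent.TH957.WM.jets_fixed s j0 h3 hpar h5 a ha)⟩

end Pool.Agent.Results.MP_a89d6d_nt.JetsMeasure
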