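import Pool.Agent.TH818.SA.Sub

/-!
# Odd zeta values outside finite-dimensional rational vector spaces

A rational vector space `V ⊆ ℝ` of dimension `D ≤ c log log s` misses at least `(c/D) √(s log log s / log s)` of
the odd zeta values `ζ(i)`, `i ≤ s`.

The proof combines Dirichlet's theorem on simultaneous approximation, applied to a basis of `V`, with the lower
bound for the simultaneous approximation of odd zeta values in `Pool/Agent/TH818/SA/MA2.lean`.

Credits: helper818; for the determinants see `Pool/Agent/Results/MP_c2395a_nt/SqrtLogLog.lean`.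
-/

set_option autoImplicit false

namespace Pool.Agent.Results.MP_a89d6d_nt.OutsideSubspaces

/-- **Odd zeta values outside finite-dimensional subspaces.** For every large `s`, every `D` with
`1 ≤ D ≤ log log s / 2000` and every rational vector space `V ⊆ ℝ` of dimension at most `D`, at least
`(1 / (2000 D)) √(s log log s / log s)` of the odd `i`, `3 ≤ i ≤ s`, have `ζ(i) = ∑ 1/(n+1)^i ∉ V`. -/
theorem result : ∃ s0 : ℕ, ∀ s ≥ s0, ∀ D : ℕ, 1 ≤ D →
    (D : ℝ) ≤ (1 / 2000) * Real.log (Real.log s) →
    ∀ V : Submodule ℚ ℝ, FiniteDimensional ℚ V → Module.finrank ℚ V ≤ D →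
    (1 / 2000) / D * Real.sqrt (s * Real.log (Real.log s) / Real.log s) ≤
      (Set.ncard {i : ℕ | 3 ≤ i ∧ i ≤ s ∧ Odd i ∧ (∑' n : ℕ, 1 / ((n : ℝ) + 1) ^ i) ∉ V} : ℝ) :=
  Pool.Agent.TH818.SA.t_sub

end Pool.Agent.Results.MP_a89d6d_nt.OutsideSubspaces
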