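import Pool.Agent.TH647.NR.Zeta

/-!
# The rank of the near relations between `1, π ^ 2, ζ(3)` and arbitrary numbers

For all real numbers `t_1, …, t_r` (for instance odd zeta values, or monomials in `π` and the odd
zeta values) the integer vectors of norm at most `X` on which the linear form
`a + b π ^ 2 + c ζ(3) + d_1 t_1 + … + d_r t_r` is very small span a space of dimension at most `r`,
at every scale `X` and with a constant independent of `t_1, …, t_r`.
-/

set_option autoImplicit false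

namespace Pool.Agent.Results.MP_a89d6d_nt.RankOfNearRelations

open Pool.Agent.TH647.NR

theorem result : ∃ κ : ℝ, 0 < κ ∧ ∀ r : ℕ, ∃ c : ℝ, 0 < c ∧
    ∀ (t : Fin r → ℝ) (X : ℝ), 1 ≤ X →
      ∀ v : Fin (r + 1) → (Fin 3 → ℤ) × (Fin r → ℤ), LinearIndependent ℤ v →
        (∀ k, ‖v k‖ ≤ X) →
        ∃ k, c * X ^ (-((r : ℝ) + (r + 1) * κ)) ≤
          |((v k).1 0 : ℝ) + (v k).1 1 * Real.pi ^ 2 +
            (v k).1 2 * (∑' n : ℕ, 1 / ((n : ℝ) + 1) ^ 3) + ∑ j, ((v k).2 j : ℝ) * t j| := by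
  obtain ⟨κ, hκ, c, hc, h⟩ := meas_pi_zeta
  refine ⟨κ, hκ, fun r => ?_⟩
  obtain ⟨c', hc', h'⟩ := rank_bound _ κ c hc h r
  refine ⟨c', hc', fun t X hX v hv hvX => ?_⟩
  obtain ⟨k, hk⟩ := h' t X hX v hv hvX
  refine ⟨k, hk.trans (le_of_eq ?_)⟩
  unfold linr
  rw [Fin.sum_univ_three]
  simp

end Pool.Agent.Results.MP_a89d6d_nt.RankOfNearRelations
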