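import Pool.Agent.TH21.PD75.Fin

/-!
# Odd zeta values and simultaneous approximation by numbers `(a + b θ₁ + d θ₂) / q`

A quantitative form of `dim_ℚ ⟨1, ζ(3), ζ(5), ..., ζ(75)⟩ ≥ 4` and of
`Pool/Agent/Results/MP_a89d6d_nt/FieldDegreeFour.lean`: the numbers `ζ(3), ζ(5), ..., ζ(75)` are not simultaneously close
to rational combinations of `1` and two real numbers `θ₁, θ₂`. With a basis `1, θ₁, θ₂` of a real cubic field these are
the elements of that field.

The proof evaluates the mixed Hankel determinants of `Pool/Agent/H574R2/Q4/` at an arbitrary rational subspace of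
dimension three: the `p`-adic bounds hold uniformly (`PD75/PU.lean`), the determinants do not vanish at parameters
`n = 2 p`, `p` a large prime which divides neither `q` nor the two leading coefficients of a reduced basis
(`PD75/NV.lean`), and the archimedean bound persists if the subspace is within `exp (-351 n)` of the zeta values
(`PD75/AR.lean`). If the two vectors `b, d` are linearly dependent at the indices `3, 5, 7, 9`, the bound is the theorem on
rational planes in `Pool/Agent/Results/MP_c2395a_nt/PlaneDistanceZeta9.lean`.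

Credits: this extension helper21; for the determinants and their bounds see
`Pool/Agent/Results/MP_c2395a_nt/DimFourZeta75.lean`; the prime `p` comes from `Pool/Agent/TH957/ZM/Prime.lean`.
-/

set_option autoImplicit false

namespace Pool.Agent.Results.MP_a89d6d_nt.SpaceDistanceZeta75

/-- **The distance of `(1, ζ(3), ζ(5), ..., ζ(75))` to rational subspaces of dimension three.** There is `c > 0` such that
for all integers `q ≥ 1`, `a_i`, `b_i`, `d_i` (`i = 3, 5, ..., 75`), all real numbers `θ₁`, `θ₂` and all `H` with `q ≤ H`,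
`|b_i| ≤ H` and `|d_i| ≤ H` for all these `i`, one of the `37` numbers
`|ζ(i) - (a_i + θ₁ b_i + θ₂ d_i) / q|` is at least `c / H ^ 6180`. -/
theorem result : ∃ c : ℝ, 0 < c ∧ ∀ (q : ℕ) (a b d : ℕ → ℤ) (θ₁ θ₂ H : ℝ), 0 < q → (q : ℝ) ≤ H →
    (∀ i : ℕ, Odd i → 3 ≤ i → i ≤ 75 → |(b i : ℝ)| ≤ H) →
    (∀ i : ℕ, Odd i → 3 ≤ i → i ≤ 75 → |(d i : ℝ)| ≤ H) →
    ∃ i : ℕ, Odd i ∧ 3 ≤ i ∧ i ≤ 75 ∧ c / H ^ 6180 ≤
      |(∑' n : ℕ, 1 / ((n : ℝ) + 1) ^ i) - ((a i : ℝ) + θ₁ * (b i : ℝ) + θ₂ * (d i : ℝ)) / q| := by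
  obtain ⟨c, hc, h⟩ := Pool.Agent.TH21.PD75.main
  refine ⟨c, hc, fun q a b d θ₁ θ₂ H hq hqH hb hd => ?_⟩
  obtain ⟨i, hi, hle⟩ := h q a b d θ₁ θ₂ H hq hqH
    (fun i hi => by
      rw [Pool.Agent.TH21.PD75.mem_I37] at hi
      exact hb i hi.2 hi.1.1 hi.1.2)
    (fun i hi => by
      rw [Pool.Agent.TH21.PD75.mem_I37] at hi
      exact hd i hi.2 hi.1.1 hi.1.2)
  rw [Pool.Agent.TH21.PD75.mem_I37] at hi
  exact ⟨i, hi.2, hi.1.1, hi.1.2, hle⟩

end Pool.Agent.Results.MP_a89d6d_nt.SpaceDistanceZeta75
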